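import Pool.Agent.Lib.MP_5ff138_lc.Examples

open scoped Pointwise

namespace Pool.Agent.Results.MP_5ff138_lc.Lamplighter

open Pool.Agent.Lib.MP_5ff138_lc

/-- The restricted regular wreath product (lamplighter group): finitely supported elements. -/
def lamp (F Q : Type) [Group F] [Group Q] : Subgroup (RegularWreathProduct F Q) where
  carrier := {w | (Function.mulSupport w.left).Finite}
  one_mem' := by simp
  mul_mem' := by
    intro a b ha hb
    refine (Set.Finite.union ha (Set.Finite.image (fun q => a.right * q) hb)).subset fun q hq => ?_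
    by_cases h : a.left q = 1
    · exact Or.inr ⟨a.right⁻¹ * q, by simpa [h] using hq, by simp⟩
    · exact Or.inl h
  inv_mem' := by
    intro a ha
    refine (Set.Finite.image (fun q => a.right⁻¹ * q) ha).subset fun q hq => ?_
    exact ⟨a.right * q, by simpa using hq, by simp⟩

theorem lamp_countable (F Q : Type) [Group F] [Group Q] [Countable F] [Countable Q] :
    Countable (lamp F Q) := by
  have : Countable (Additive F) := Countable.of_equiv F Additive.ofMul
  refine Function.Injective.countable (f := fun w : lamp F Q =>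
    (Finsupp.ofSupportFinite (fun q => Additive.ofMul (w.1.left q)) w.2, w.1.right)) ?_
  intro a b h
  simp only [Prod.mk.injEq] at h
  refine Subtype.ext (RegularWreathProduct.ext (funext fun q => ?_) h.2)
  exact Additive.ofMul.injective (DFunLike.congr_fun h.1 q)

theorem lamp_tame (F Q : Type) [Group F] [Group Q] [Finite F]
    (hQ : ∀ T : Set Q, T.Finite → ∃ C d : ℕ, ∀ n : ℕ, (T ^ n).ncard ≤ C * (n + 1) ^ d) :
    Tame (lamp F Q) := by
  refine tame_of_res (F := F) (RegularWreathProduct.rightHom.comp (lamp F Q).subtype) hQ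
    fun δ hδ => ?_
  have : ∃ q, δ.1.1.left q ≠ 1 := by
    by_contra h
    push Not at h
    exact hδ (Subtype.ext (Subtype.ext (RegularWreathProduct.ext (funext h) δ.2)))
  obtain ⟨q, hq⟩ := this
  refine ⟨⟨⟨fun w => w.1.1.left q, rfl⟩, fun a b => ?_⟩, hq⟩
  have ha : a.1.1.right = 1 := a.2
  simp [ha]

theorem result :
    (∀ (G : Type) [Group G] [Countable G], Tame G → H G = Sh G) ∧
    (∀ (G Q F : Type) [Group G] [Group Q] [Group F] [Finite F] (π : G →* Q),
      (∀ T : Set Q, T.Finite → ∃ C d : ℕ, ∀ n : ℕ, (T ^ n).ncard ≤ C * (n + 1) ^ d) →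
      (∀ δ : π.ker, δ ≠ 1 → ∃ φ : π.ker →* F, φ δ ≠ 1) → Tame G) ∧
    ∀ (F : Type) [Group F] [Finite F] (d : ℕ),
      Countable (lamp F (Multiplicative (Fin d → ℤ))) ∧
        Tame (lamp F (Multiplicative (Fin d → ℤ))) :=
  ⟨fun _ _ _ hG => H_eq_Sh hG, fun _ _ _ _ _ _ _ π hQ hres => tame_of_res π hQ hres,
    fun F _ _ _ => ⟨@lamp_countable _ _ _ _ _ (Countable.of_equiv _ Multiplicative.ofAdd),
      lamp_tame F _ fun T hT => ⟨1, T.ncard, fun n => by simpa using comm_growth hT n⟩⟩⟩

end Pool.Agent.Results.MP_5ff138_lc.Lamplighter
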